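import Pool.Agent.Helper43.QN.Basic
import Pool.Agent.Helper40.QG.More
import Pool.Agent.Helper44.QL.Pi

/-!
# AUT project (S00834): the second half of the uniform proposition, part 1

`emb X : GG X C Y →* GG ⊤ C Y`; an additive automorphism `g` of `E^15 × Y^15` with
`g ((x, c) w) = (β x, c) (g w)` is given by an element of `NN`.
-/

set_option autoImplicit false
set_option linter.unusedSectionVars false

namespace QP27

open QN43 Matrix

section

variable {A : Type} [CommRing A] {B : Type} [Ring B] {κ : A →+* B}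
variable {E : Type} [AddCommGroup E] [Module A E]
variable {C Y : Type} [Group C] [AddCommGroup Y] [Module B Y] [DistribMulAction C Y]
  [SMulCommClass C B Y]

/-- The embedding `GG X C Y → GG ⊤ C Y`. -/
def emb (X : Subgroup (NN κ E)) (C Y : Type) [Group C] [AddCommGroup Y] [Module B Y]
    [DistribMulAction C Y] [SMulCommClass C B Y] :
    GG X C Y →* GG (⊤ : Subgroup (NN κ E)) C Y where
  toFun u := ⟨u.v, (⟨u.c.1.1, trivial⟩, u.c.2)⟩
  map_one' := rfl
  map_mul' u v := rfl

@[simp] theorem emb_v (X : Subgroup (NN κ E)) (u : GG X C Y) : (emb X C Y u).v = u.v := rfl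
@[simp] theorem emb_c1 (X : Subgroup (NN κ E)) (u : GG X C Y) :
    ((emb X C Y u).c.1 : NN κ E) = u.c.1 := rfl
@[simp] theorem emb_c2 (X : Subgroup (NN κ E)) (u : GG X C Y) : (emb X C Y u).c.2 = u.c.2 := rfl

theorem emb_injective (X : Subgroup (NN κ E)) : Function.Injective (emb X C Y) := by
  intro u v huv
  have h1 := congrArg SD.v huv
  have h2 := congrArg (fun x => (x.c.1 : NN κ E)) huv
  have h3 := congrArg (fun x => x.c.2) huv
  apply SD.ext
  · exact h1
  · exact Prod.ext (Subtype.ext h2) h3

/-- The matrix of a `C`-endomorphism of `Y^15`. -/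
theorem exists_mat
    (endo : ∀ f : Y →+ Y, (∀ (c : C) (y : Y), f (c • y) = c • f y) → ∃ b : B, ∀ y, f y = b • y)
    (g : (Fin 15 → Y) →+ (Fin 15 → Y))
    (hg : ∀ (c : C) (y : Fin 15 → Y), g (fun i => c • y i) = fun i => c • g y i) :
    ∃ m : Mt B, ∀ y, g y = mact m y := by
  have h1 : ∀ i j : Fin 15, ∃ b : B, ∀ y : Y, g (Pi.single j y) i = b • y := by
    intro i j
    have h2 := endo ((Pi.evalAddMonoidHom (fun _ => Y) i).comp
      (g.comp (AddMonoidHom.single (fun _ => Y) j))) (by
      intro c y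
      have h3 : (fun l => c • (Pi.single j y : Fin 15 → Y) l) = Pi.single j (c • y) := by
        funext l
        by_cases hl : l = j
        · subst hl
          simp
        · simp [hl]
      have h4 := congrFun (hg c (Pi.single j y)) i
      rw [h3] at h4
      exact h4)
    exact h2
  choose m hm using h1
  refine ⟨m, fun y => ?_⟩
  funext i
  have h5 : y = ∑ j, Pi.single j (y j) := (Finset.univ_sum_single y).symm
  conv_lhs => rw [h5]
  rw [map_sum, Finset.sum_apply, mact_apply]
  exact Finset.sum_congr rfl fun j _ => hm i j (y j)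

theorem mact_faithful (faith : ∀ b : B, (∀ y : Y, b • y = 0) → b = 0) {m m' : Mt B}
    (h : ∀ y : Fin 15 → Y, mact m y = mact m' y) : m = m' := by
  funext i j
  have h1 : m i j - m' i j = 0 := by
    apply faith
    intro y
    have h2 := congrFun (h (Pi.single j y)) i
    rw [mact_apply, mact_apply, Finset.sum_eq_single j, Finset.sum_eq_single j] at h2
    · simp only [Pi.single_eq_same] at h2
      rw [sub_smul, h2, sub_self]
    · intro l _ hl
      simp [hl]
    · intro hh
      exact absurd (Finset.mem_univ j) hh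
    · intro l _ hl
      simp [hl]
    · intro hh
      exact absurd (Finset.mem_univ j) hh
  exact sub_eq_zero.mp h1

/-- The inclusions and projections of `E^15 × Y^15`. -/
def inE (E Y : Type) [AddCommGroup E] [AddCommGroup Y] : (Fin 15 → E) →+ WW E Y :=
  AddMonoidHom.inl (Fin 15 → E) (Fin 15 → Y)

/-- The inclusion of `Y^15`. -/
def inY (E Y : Type) [AddCommGroup E] [AddCommGroup Y] : (Fin 15 → Y) →+ WW E Y :=
  AddMonoidHom.inr (Fin 15 → E) (Fin 15 → Y)

/-- The projection to `E^15`. -/
def prE (E Y : Type) [AddCommGroup E] [AddCommGroup Y] : WW E Y →+ (Fin 15 → E) :=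
  AddMonoidHom.fst (Fin 15 → E) (Fin 15 → Y)

/-- The projection to `Y^15`. -/
def prY (E Y : Type) [AddCommGroup E] [AddCommGroup Y] : WW E Y →+ (Fin 15 → Y) :=
  AddMonoidHom.snd (Fin 15 → E) (Fin 15 → Y)

theorem prE_apply (w : WW E Y) : prE E Y w = w.1 := rfl
theorem prY_apply (w : WW E Y) : prY E Y w = w.2 := rfl
@[simp] theorem inE_fst (e : Fin 15 → E) : (inE E Y e).1 = e := rfl
@[simp] theorem inE_snd (e : Fin 15 → E) : (inE E Y e).2 = 0 := rfl
@[simp] theorem inY_fst (y : Fin 15 → Y) : (inY E Y y).1 = 0 := rfl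
@[simp] theorem inY_snd (y : Fin 15 → Y) : (inY E Y y).2 = y := rfl

theorem ww_decomp (w : WW E Y) : w = inE E Y w.1 + inY E Y w.2 :=
  Prod.ext (add_zero _).symm (zero_add _).symm

theorem ww_ext {v w : WW E Y} (h1 : v.1 = w.1) (h2 : v.2 = w.2) : v = w := Prod.ext h1 h2

theorem smul_inE {X : Subgroup (NN κ E)} (x : X) (c : C) (e : Fin 15 → E) :
    ((x, c) : X × C) • inE E Y e = inE E Y ((x.1.1.1 : AddMonoid.End (Fin 15 → E)) e) := by
  apply ww_ext
  · rfl
  · rw [ww_snd]
    show mact _ (fun i => c • (0 : Y)) = 0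
    simp only [smul_zero]
    exact map_zero _

theorem smul_inY {X : Subgroup (NN κ E)} (x : X) (c : C) (y : Fin 15 → Y) :
    ((x, c) : X × C) • inY E Y y = inY E Y (mact (x.1.1.2 : Mt B) (fun i => c • y i)) := by
  apply ww_ext
  · exact map_zero _
  · rfl

/-- `NN` acts faithfully, even after twisting by an element of `C`. -/
theorem ww_faithful (faith : ∀ b : B, (∀ y : Y, b • y = 0) → b = 0) {X : Subgroup (NN κ E)}
    {x x' : X} {c : C} (h : ∀ w : WW E Y, ((x, c) : X × C) • w = ((x', c) : X × C) • w) :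
    x = x' := by
  apply Subtype.ext
  apply Subtype.ext
  apply Prod.ext
  · apply Units.ext
    apply AddMonoidHom.ext
    intro e
    have h1 := congrArg Prod.fst (h (inE E Y e))
    exact h1
  · apply Units.ext
    apply mact_faithful faith
    intro y
    have h1 := h (inY E Y (fun i => c⁻¹ • y i))
    rw [smul_inY, smul_inY] at h1
    simp only [smul_inv_smul] at h1
    exact congrArg Prod.snd h1

/-- Block structure of a semilinear automorphism of `E^15 × Y^15`. -/
theorem block (hC : Odd B C Y) {X : Subgroup (NN κ E)} (hX : G1s κ E ≤ X)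
    (β : X ≃* X) (g : WW E Y ≃+ WW E Y)
    (hg : ∀ (x : X) (c : C) (w : WW E Y),
      g (((x, c) : X × C) • w) = ((β x, c) : X × C) • g w) :
    ∃ n : (AddMonoid.End (Fin 15 → E))ˣ × (Mt B)ˣ, ∀ w : WW E Y,
      g w = inE E Y ((n.1 : AddMonoid.End (Fin 15 → E)) w.1) + inY E Y (mact (n.2 : Mt B) w.2) := by
  classical
  -- the inverse is semilinear, too
  have hg' : ∀ (x : X) (c : C) (w : WW E Y),
      g.symm (((x, c) : X × C) • w) = ((β.symm x, c) : X × C) • g.symm w := by
    intro x c w
    apply g.injective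
    rw [AddEquiv.apply_symm_apply, hg, AddEquiv.apply_symm_apply, MulEquiv.apply_symm_apply]
  -- `E^15` is preserved
  have fixE : ∀ (k : WW E Y ≃+ WW E Y) (b : X ≃* X), (∀ (x : X) (c : C) (w : WW E Y),
      k (((x, c) : X × C) • w) = ((b x, c) : X × C) • k w) →
      ∀ e : Fin 15 → E, (k (inE E Y e)).2 = 0 := by
    intro k b hk e
    funext i
    apply hC.fix
    intro c
    have h1 := hk 1 c (inE E Y e)
    rw [smul_inE, map_one] at h1
    change k (inE E Y e) = _ at h1
    have h3 := congrArg Prod.snd h1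
    have h4 := congrFun h3 i
    rw [ww_snd] at h4
    have h5 : mact (((1 : X).1.1.2 : (Mt B)ˣ) : Mt B) (fun i => c • (k (inE E Y e)).2 i) =
        fun i => c • (k (inE E Y e)).2 i := mact_one_apply _
    rw [h5] at h4
    exact h4.symm
  have hE := fixE g β hg
  have hE' := fixE g.symm β.symm hg'
  have pairE : ∀ (k : WW E Y ≃+ WW E Y), (∀ e : Fin 15 → E, (k (inE E Y e)).2 = 0) →
      ∀ e : Fin 15 → E, k (inE E Y e) = inE E Y (k (inE E Y e)).1 :=
    fun k hk e => ww_ext rfl (hk e)
  -- the map on `E^15`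
  let e1 : AddMonoid.End (Fin 15 → E) := (prE E Y).comp (g.toAddMonoidHom.comp (inE E Y))
  let e2 : AddMonoid.End (Fin 15 → E) := (prE E Y).comp (g.symm.toAddMonoidHom.comp (inE E Y))
  have he1 : ∀ e, g (inE E Y e) = inE E Y (e1 e) := pairE g hE
  have he2 : ∀ e, g.symm (inE E Y e) = inE E Y (e2 e) := pairE g.symm hE'
  have he12 : e1 * e2 = 1 := by
    apply AddMonoidHom.ext
    intro e
    have h1 : g (g.symm (inE E Y e)) = inE E Y e := AddEquiv.apply_symm_apply _ _
    rw [he2, he1] at h1
    exact congrArg Prod.fst h1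
  have he21 : e2 * e1 = 1 := by
    apply AddMonoidHom.ext
    intro e
    have h1 : g.symm (g (inE E Y e)) = inE E Y e := AddEquiv.symm_apply_apply _ _
    rw [he1, he2] at h1
    exact congrArg Prod.fst h1
  -- the off-diagonal block is zero
  let off0 : (Fin 15 → Y) →+ (Fin 15 → E) := (prE E Y).comp (g.toAddMonoidHom.comp (inY E Y))
  have hoff0 : ∀ y, (g (inY E Y y)).1 = off0 y := fun y => rfl
  have key : ∀ (y : Fin 15 → Y) (x : X), ((x, (1 : C)) : X × C) • inY E Y y = inY E Y y →
      (x.1.1.1 : AddMonoid.End (Fin 15 → E)) (e2 (off0 y)) = e2 (off0 y) := by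
    intro y x hxy
    have h2 := hg x 1 (inY E Y y)
    rw [hxy] at h2
    have h3 : ((β x, (1 : C)) : X × C) • inE E Y (off0 y) = inE E Y (off0 y) := by
      rw [smul_inE]
      congr 1
      exact (congrArg Prod.fst h2).symm
    have h4 := hg' (β x) 1 (inE E Y (off0 y))
    rw [h3, MulEquiv.symm_apply_apply, he2, smul_inE] at h4
    exact (congrArg Prod.fst h4).symm
  have tvU : ∀ a b : Fin 15, a ≠ b → ∃ z : (Mt A)ˣ, (z : Mt A) = Matrix.transvection a b 1 ∧
      ((z⁻¹ : (Mt A)ˣ) : Mt A) = Matrix.transvection a b (-1) := by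
    intro a b hab
    refine ⟨⟨Matrix.transvection a b 1, Matrix.transvection a b (-1), ?_, ?_⟩, rfl, rfl⟩
    · rw [Matrix.transvection_mul_transvection_same a b hab]
      simp
    · rw [Matrix.transvection_mul_transvection_same a b hab]
      simp
  have offE : ∀ (j : Fin 15) (y0 : Y), e2 (off0 (Pi.single j y0)) = 0 := by
    intro j y0
    funext b
    obtain ⟨a, haj, hab⟩ : ∃ a : Fin 15, a ≠ j ∧ a ≠ b := by
      have : ∃ a ∈ (Finset.univ : Finset (Fin 15)), a ∉ ({j, b} : Finset (Fin 15)) := by
        apply Finset.exists_mem_notMem_of_card_lt_card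
        refine lt_of_le_of_lt (Finset.card_le_two) ?_
        simp
      obtain ⟨a, -, ha⟩ := this
      simp only [Finset.mem_insert, Finset.mem_singleton, not_or] at ha
      exact ⟨a, ha.1, ha.2⟩
    obtain ⟨z, hz1, hz2⟩ := tvU a b hab
    have h1 := key (Pi.single j y0) ⟨sig κ E z, hX ⟨z, rfl⟩⟩ (by
      rw [smul_inY]
      congr 1
      show mact (kT κ ((z⁻¹ : (Mt A)ˣ) : Mt A)) (fun i => (1 : C) • (Pi.single j y0 : Fin 15 → Y) i) = _
      simp only [one_smul]
      rw [hz2]
      funext i
      rw [mact_apply, Finset.sum_eq_single j]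
      · rw [Pi.single_eq_same, kT_apply, Matrix.transvection, Matrix.add_apply,
          Matrix.single_apply_of_ne (h := fun hh => haj hh.1)]
        by_cases hij : i = j
        · subst hij
          rw [Matrix.one_apply_eq, Pi.single_eq_same, add_zero, map_one, one_smul]
        · rw [Matrix.one_apply_ne (fun hh => hij hh.symm), Pi.single_eq_of_ne hij, add_zero,
            map_zero, zero_smul]
      · intro l _ hl
        rw [Pi.single_eq_of_ne hl, smul_zero]
      · intro hh
        exact absurd (Finset.mem_univ j) hh)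
    have h2 := congrFun h1 a
    change mact (z : Mt A) _ a = _ at h2
    rw [hz1, mact_apply, Matrix.transvection] at h2
    simp only [Matrix.add_apply, add_smul, Finset.sum_add_distrib] at h2
    rw [Finset.sum_eq_single a (fun l _ hl => by rw [Matrix.one_apply_ne hl.symm, zero_smul])
      (fun hh => absurd (Finset.mem_univ a) hh), Matrix.one_apply_eq, one_smul,
      Finset.sum_eq_single b (fun l _ hl => by
        rw [Matrix.single_apply_of_ne (h := fun hh => hl hh.2.symm), zero_smul])
      (fun hh => absurd (Finset.mem_univ b) hh), Matrix.single_apply_same, one_smul] at h2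
    exact left_eq_add.mp h2.symm
  have off : ∀ y : Fin 15 → Y, off0 y = 0 := by
    have h1 : ∀ (j : Fin 15) (y0 : Y), off0 (Pi.single j y0) = 0 := by
      intro j y0
      have h2 : (e1 * e2) (off0 (Pi.single j y0)) = off0 (Pi.single j y0) := by
        rw [he12]
        rfl
      rw [← h2]
      show e1 (e2 (off0 (Pi.single j y0))) = 0
      rw [offE, map_zero]
    intro y
    have h5 : y = ∑ j, Pi.single j (y j) := (Finset.univ_sum_single y).symm
    rw [h5, map_sum]
    exact Finset.sum_eq_zero fun j _ => h1 j (y j)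
  have pairY : ∀ y : Fin 15 → Y, g (inY E Y y) = inY E Y (g (inY E Y y)).2 :=
    fun y => ww_ext (off y) rfl
  have off' : ∀ y : Fin 15 → Y, (g.symm (inY E Y y)).1 = 0 := by
    intro y
    set w := g.symm (inY E Y y) with hw
    have h1 : g w = inY E Y y := by rw [hw, AddEquiv.apply_symm_apply]
    rw [ww_decomp w, map_add, he1, pairY] at h1
    have h3 := congrArg Prod.fst h1
    change e1 w.1 + 0 = 0 at h3
    rw [add_zero] at h3
    have h4 : (e2 * e1) w.1 = w.1 := by
      rw [he21]
      rfl
    rw [← h4]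
    show e2 (e1 w.1) = 0
    rw [h3, map_zero]
  have pairY' : ∀ y : Fin 15 → Y, g.symm (inY E Y y) = inY E Y (g.symm (inY E Y y)).2 :=
    fun y => ww_ext (off' y) rfl
  -- the map on `Y^15`
  have mkY : ∀ (k : WW E Y ≃+ WW E Y) (b : X ≃* X), (∀ (x : X) (c : C) (w : WW E Y),
      k (((x, c) : X × C) • w) = ((b x, c) : X × C) • k w) →
      ∃ m : Mt B, ∀ y, (k (inY E Y y)).2 = mact m y := by
    intro k b hk
    apply exists_mat hC.endo ((prY E Y).comp (k.toAddMonoidHom.comp (inY E Y)))
    intro c y
    have h1 := hk 1 c (inY E Y y)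
    rw [smul_inY, map_one] at h1
    have h2 : mact (((1 : X).1.1.2 : (Mt B)ˣ) : Mt B) (fun i => c • y i) = fun i => c • y i :=
      mact_one_apply _
    rw [h2] at h1
    have h3 := congrArg Prod.snd h1
    rw [ww_snd] at h3
    exact h3.trans (mact_one_apply _)
  obtain ⟨m1, hm1⟩ := mkY g β hg
  obtain ⟨m2, hm2⟩ := mkY g.symm β.symm hg'
  have hm12 : m1 * m2 = 1 := by
    apply mact_faithful hC.faith
    intro y
    have h1 : g (g.symm (inY E Y y)) = inY E Y y := AddEquiv.apply_symm_apply _ _
    rw [pairY', pairY, hm1, hm2] at h1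
    rw [mact_mul_apply, mact_one_apply]
    exact congrArg Prod.snd h1
  have hm21 : m2 * m1 = 1 := by
    apply mact_faithful hC.faith
    intro y
    have h1 : g.symm (g (inY E Y y)) = inY E Y y := AddEquiv.symm_apply_apply _ _
    rw [pairY, pairY', hm1, hm2] at h1
    rw [mact_mul_apply, mact_one_apply]
    exact congrArg Prod.snd h1
  refine ⟨(⟨e1, e2, he12, he21⟩, ⟨m1, m2, hm12, hm21⟩), fun w => ?_⟩
  conv_lhs => rw [ww_decomp w, map_add, he1, pairY, hm1]

end

end QP27
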