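import Pool.Agent.Helper43.QN.Perf
import Pool.Agent.Helper42.QH.TTrick
import Pool.Agent.Helper27.QP.Blk

/-!
# AUT project (S00834): `H^1(X × C, E^15 × Y^15) = 0` for `G1s ≤ X`
-/

set_option autoImplicit false
set_option linter.unusedSectionVars false

namespace QP27

open QN43 Matrix

section gen

variable {A : Type} [CommRing A] {B : Type} [Ring B] {κ : A →+* B}
variable {E : Type} [AddCommGroup E] [Module A E]
variable {C Y : Type} [Group C] [AddCommGroup Y] [Module B Y] [DistribMulAction C Y]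
  [SMulCommClass C B Y]

theorem sg_sumN (N : ℕ) (X : Subgroup (NN κ E)) (hX : G1s κ E ≤ X) (z : (Mt A)ˣ)
    (hz : ∑ i ∈ Finset.range N, (z : Mt A) ^ i = 0)
    (hz' : ∑ i ∈ Finset.range N, ((z⁻¹ : (Mt A)ˣ) : Mt A) ^ i = 0) (w : WW E Y) :
    ∑ i ∈ Finset.range N, (sg X hX C z) ^ i • w = 0 := by
  apply ww_ext
  · show prE E Y (∑ i ∈ Finset.range N, (sg X hX C z) ^ i • w) = 0
    rw [map_sum]
    have h1 : ∀ i : ℕ, prE E Y ((sg X hX C z) ^ i • w) = mact ((z : Mt A) ^ i) w.1 := by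
      intro i
      rw [prE_apply, ← map_pow, sg_fst, Units.val_pow_eq_pow_val]
    rw [Finset.sum_congr rfl fun i _ => h1 i, ← mact_sum_apply, hz, map_zero]
    rfl
  · show prY E Y (∑ i ∈ Finset.range N, (sg X hX C z) ^ i • w) = 0
    rw [map_sum]
    have h1 : ∀ i : ℕ, prY E Y ((sg X hX C z) ^ i • w) =
        mact (kT κ (((z⁻¹ : (Mt A)ˣ) : Mt A) ^ i)) w.2 := by
      intro i
      rw [prY_apply, ← map_pow, sg_snd, ← inv_pow, Units.val_pow_eq_pow_val]
    rw [Finset.sum_congr rfl fun i _ => h1 i, ← mact_sum_apply, ← kT_sum, hz', QN43.kT_zero,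
      map_zero]
    rfl

end gen

section

variable {J : Type} [AddCommGroup J] [Module (ZMod 2) J] [Module (ZMod 2)ᵐᵒᵖ J]
  [IsCentralScalar (ZMod 2) J]
variable {B : Type} [Ring B] {κ : A0 J →+* B}
variable {E : Type} [AddCommGroup E] [Module (A0 J) E]
variable {C Y : Type} [Group C] [AddCommGroup Y] [Module B Y] [DistribMulAction C Y]
  [SMulCommClass C B Y]

/-- the subgroup `G1s × C` of `X × C` -/
def KK (X : Subgroup (NN κ E)) (C : Type) [Group C] : Subgroup (X × C) :=
  ((G1s κ E).comap X.subtype).prod ⊤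

theorem mem_KK (X : Subgroup (NN κ E)) (p : X × C) : p ∈ KK X C ↔ (p.1 : NN κ E) ∈ G1s κ E := by
  unfold KK
  rw [Subgroup.mem_prod]
  constructor
  · rintro ⟨h, -⟩
    exact h
  · intro h
    exact ⟨h, trivial⟩

theorem sg_mem_KK (X : Subgroup (NN κ E)) (hX : G1s κ E ≤ X) (z : (Mt (A0 J))ˣ) :
    sg X hX C z ∈ KK X C := by
  rw [mem_KK]
  exact ⟨z, rfl⟩

theorem h1_G1s [Finite E] [Finite Y] (X : Subgroup (NN κ E)) (hX : G1s κ E ≤ X)
    (f : X × C → WW E Y) (hf : ∀ x y, f (x * y) = f x + x • f y) :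
    ∃ m : WW E Y, ∀ p : X × C, (p.1 : NN κ E) ∈ G1s κ E → f p = p • m - m := by
  let j : (Mt (A0 J))ˣ →* KK X C := (sg X hX C).codRestrict (KK X C) (sg_mem_KK X hX)
  have hj : ∀ z, ((j z : KK X C) : X × C) = sg X hX C z := fun z => rfl
  obtain ⟨m, hm⟩ := QH42.ttrick (A := A0 J) (QL44.fstR J) (hsqA J) (X := KK X C) (M := WW E Y)
    (ww_add_self κ) j (by
      rw [eq_top_iff]
      intro p _
      obtain ⟨⟨x, c⟩, hp⟩ := p
      have hp' := (mem_KK X (x, c)).mp hp
      obtain ⟨z, hz⟩ := hp'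
      have hc : ((1, c) : X × C) ∈ KK X C := by
        rw [mem_KK]
        exact one_mem _
      have h1 : (⟨(x, c), hp⟩ : KK X C) = j z * ⟨(1, c), hc⟩ := by
        apply Subtype.ext
        apply Prod.ext
        · show x = (sg X hX C z).1 * 1
          rw [mul_one]
          exact Subtype.ext hz.symm
        · show c = 1 * c
          rw [one_mul]
      rw [h1]
      apply mul_mem
      · exact Subgroup.subset_closure (Or.inl ⟨z, rfl⟩)
      · apply Subgroup.subset_closure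
        right
        intro t
        apply Subtype.ext
        apply Prod.ext
        · show 1 * _ = _ * 1
          rw [one_mul, mul_one]
        · show c * 1 = 1 * c
          rw [one_mul, mul_one])
    (by
      intro t w
      have h1 := sg_sumN (C := C) (Y := Y) 7 X hX (QH42.TA (A0 J) t)
        (QH42.TA_sum (A0 J) t) (QH42.TA_inv_sum (A0 J) t) w
      exact h1)
    (fun p => f p.1) (fun p q => hf p.1 q.1)
  exact ⟨m, fun p hp => hm ⟨p, (mem_KK X p).mpr hp⟩⟩

/-- `H^1 = 0`. -/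
theorem h1 [Finite E] [Finite Y] (hn : (G1s κ E).Normal) (X : Subgroup (NN κ E))
    (hX : G1s κ E ≤ X) (f : X × C → WW E Y) (hf : ∀ x y, f (x * y) = f x + x • f y) :
    ∃ m : WW E Y, ∀ p : X × C, f p = p • m - m := by
  obtain ⟨m, hm⟩ := h1_G1s X hX f hf
  refine ⟨m, fun p => ?_⟩
  obtain ⟨z, hz⟩ := exists_zA J
  -- `f' = f - δ m` vanishes on `G1s × C`
  set f' : X × C → WW E Y := fun q => f q - (q • m - m) with hf'
  have hf'c : ∀ q r, f' (q * r) = f' q + q • f' r := by
    intro q r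
    simp only [hf', hf, mul_smul, smul_sub]
    abel
  have h0 : ∀ q : X × C, (q.1 : NN κ E) ∈ G1s κ E → f' q = 0 := by
    intro q hq
    simp only [hf', hm q hq, sub_self]
  have h2 : sg X hX C z • f' p = f' p := by
    have h3 := hf'c (sg X hX C z) p
    have h4 : sg X hX C z * p = p * (p⁻¹ * sg X hX C z * p) := by group
    have h5 : ((p⁻¹ * sg X hX C z * p).1 : NN κ E) ∈ G1s κ E := by
      have h6 := hn.conj_mem (sig κ E z) ⟨z, rfl⟩ ((p.1 : NN κ E)⁻¹)
      rw [inv_inv] at h6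
      exact h6
    have h7 := hf'c p (p⁻¹ * sg X hX C z * p)
    rw [h0 _ h5, smul_zero, add_zero] at h7
    have h8 : f' (sg X hX C z) = 0 := h0 _ ⟨z, rfl⟩
    rw [h4, h7, h8, zero_add] at h3
    exact h3.symm
  have h9 := sg_fix X hX z hz (f' p) h2
  simp only [hf'] at h9
  exact sub_eq_zero.mp h9

end

end QP27
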