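import Pool.Agent.Helper27.QP.MemNN
import Pool.Agent.Helper27.QP.H1

/-!
# AUT project (S00834): the second half of the uniform proposition

An automorphism `α` of `GG X C Y` which respects the factors `E^15 × Y^15`, `X`, `C` is conjugation by an
element of `GG ⊤ C Y`.
-/

set_option autoImplicit false
set_option linter.unusedSectionVars false

namespace QP27

open QN43 Matrix

section

variable {J : Type} [AddCommGroup J] [Module (ZMod 2) J] [Module (ZMod 2)ᵐᵒᵖ J]
  [IsCentralScalar (ZMod 2) J]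
variable {B : Type} [Ring B] {κ : A0 J →+* B}
variable {E : Type} [AddCommGroup E] [Module (A0 J) E]
variable {C Y : Type} [Group C] [AddCommGroup Y] [Module B Y] [DistribMulAction C Y]
  [SMulCommClass C B Y]

/-- The element `(n, c)` of `⊤ × C`. -/
def tp (n : NN κ E) (c : C) : (⊤ : Subgroup (NN κ E)) × C := (⟨n, trivial⟩, c)

theorem tp_mul (n n' : NN κ E) (c c' : C) : tp n c * tp n' c' = tp (n * n') (c * c') := rfl

theorem tp_inv (n : NN κ E) (c : C) : (tp n c)⁻¹ = tp n⁻¹ c⁻¹ := rfl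

theorem tp_smul {X : Subgroup (NN κ E)} (x : X) (c : C) (w : WW E Y) :
    tp (x : NN κ E) c • w = ((x, c) : X × C) • w := rfl

/-- `c` acts trivially on `Y` if and only if `(1, c)` acts trivially on `E^15 × Y^15`. -/
theorem one_smul_iff {X : Subgroup (NN κ E)} (c : C) :
    (∀ w : WW E Y, (((1 : X), c) : X × C) • w = w) ↔ ∀ y : Y, c • y = y := by
  constructor
  · intro h y
    have h1 := h (inY E Y (fun _ => y))
    rw [smul_inY] at h1
    have h2 := congrArg Prod.snd h1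
    have h3 : mact (((1 : X).1.1.2 : (Mt B)ˣ) : Mt B) (fun i : Fin 15 => c • y) =
        fun i => c • y := mact_one_apply _
    have h4 := congrFun (h3.symm.trans h2) 0
    exact h4
  · intro h w
    apply ww_ext
    · rfl
    · rw [ww_snd]
      refine (mact_one_apply _).trans ?_
      funext i
      exact h (w.2 i)

/-- The second half of the uniform proposition. -/
theorem conj_of_factors [Finite E] (hκ : Function.Injective κ) (hn : (G1s κ E).Normal)
    (hC : Odd B C Y) {X : Subgroup (NN κ E)} (hX : G1s κ E ≤ X)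
    (α : GG X C Y ≃* GG X C Y) (β : X ≃* X) (θ : C ≃* C) (g : WW E Y ≃+ WW E Y)
    (hinl : ∀ w, α (SD.inl w) = SD.inl (g w))
    (hc : ∀ u : GG X C Y, (α u).c = (β u.c.1, θ u.c.2))
    (hβ : ∀ x : X, (x : NN κ E) ∈ QL44.PiIn 151 (G1s κ E) →
      (β x : NN κ E) ∈ QL44.PiIn 151 (G1s κ E))
    (hβ' : ∀ x : X, (x : NN κ E) ∈ QL44.PiIn 151 (G1s κ E) →
      (β.symm x : NN κ E) ∈ QL44.PiIn 151 (G1s κ E)) :
    ∃ γ : GG (⊤ : Subgroup (NN κ E)) C Y, ∀ u, emb X C Y (α u) = γ * emb X C Y u * γ⁻¹ := by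
  have hY : Finite Y := hC.finY
  -- semilinearity
  have hg : ∀ (h : X × C) (w : WW E Y), g (h • w) = ((β h.1, θ h.2) : X × C) • g w := by
    intro h w
    have h1 : α (SD.inr h * SD.inl w * (SD.inr h)⁻¹) = α (SD.inl (h • w)) := by
      rw [SD.conj_inl]
    rw [map_mul, map_mul, map_inv, hinl, hinl] at h1
    have h2 := congrArg SD.v h1
    have h3 := hc (SD.inr h)
    simp only [SD.mul_v, SD.mul_c, SD.inl_v, SD.inl_c, SD.inv_v, SD.inv_c, mul_one, smul_neg,
      smul_inv_smul] at h2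
    rw [h3] at h2
    rw [← h2]
    simp
  -- `θ` is inner
  obtain ⟨x0, hx0⟩ := hC.inner θ (by
    intro c hcY
    rw [← one_smul_iff (E := E) (κ := κ) (X := X)] at hcY ⊢
    intro w
    have h1 := hg (1, c) (g.symm w)
    rw [hcY, AddEquiv.apply_symm_apply] at h1
    simp only [map_one] at h1
    exact h1.symm)
  -- correct `g` by `x0`
  let s0 : WW E Y ≃+ WW E Y := DistribMulAction.toAddEquiv (WW E Y) (((1 : X), x0⁻¹) : X × C)
  let g' : WW E Y ≃+ WW E Y := g.trans s0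
  have hg'v : ∀ w, g' w = (((1 : X), x0⁻¹) : X × C) • g w := fun w => rfl
  have hg' : ∀ (x : X) (c : C) (w : WW E Y),
      g' (((x, c) : X × C) • w) = ((β x, c) : X × C) • g' w := by
    intro x c w
    rw [hg'v, hg'v, hg, ← mul_smul, ← mul_smul]
    congr 1
    apply Prod.ext
    · show 1 * β x = β x * 1
      rw [one_mul, mul_one]
    · show x0⁻¹ * θ c = c * x0⁻¹
      rw [hx0]
      group
  obtain ⟨n, hnw⟩ := mem_NN hκ (incA J) (QL44.fstR J) (hsqA J) hC hX β g' hβ hβ' hg'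
  have hgn : ∀ w, g w = tp n x0 • w := by
    intro w
    have h1 := hnw w
    rw [hg'v] at h1
    have h2 : g w = (((1 : X), x0) : X × C) • (((1 : X), x0⁻¹) : X × C) • g w := by
      rw [← mul_smul]
      have : (((1 : X), x0) : X × C) * (((1 : X), x0⁻¹) : X × C) = 1 := by
        apply Prod.ext
        · exact one_mul 1
        · exact mul_inv_cancel x0
      rw [this, one_smul]
    rw [h2, h1]
    have h3 : ∀ v : WW E Y, (((1 : X), x0) : X × C) • v = tp (1 : NN κ E) x0 • v := fun v => rfl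
    rw [h3]
    change tp 1 x0 • tp n 1 • w = _
    rw [← mul_smul, tp_mul, one_mul, mul_one]
  -- `(n, x0)⁻¹ (β x, θ c) (n, x0) = (x, c)`
  have hconj : ∀ h : X × C, (tp n x0)⁻¹ * tp (β h.1 : NN κ E) (θ h.2) * tp n x0 =
      tp (h.1 : NN κ E) h.2 := by
    intro h
    have h2 : x0⁻¹ * θ h.2 * x0 = h.2 := by
      rw [hx0]
      group
    rw [tp_inv, tp_mul, tp_mul, h2]
    have h1 : (⟨n⁻¹ * (β h.1 : NN κ E) * n, trivial⟩ : (⊤ : Subgroup (NN κ E))) =
        ⟨(h.1 : NN κ E), trivial⟩ := by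
      apply ww_faithful (C := C) (Y := Y) (c := h.2) hC.faith
      intro w
      change tp (n⁻¹ * (β h.1 : NN κ E) * n) h.2 • w = tp (h.1 : NN κ E) h.2 • w
      have h4 : tp (n⁻¹ * (β h.1 : NN κ E) * n) h.2 =
          (tp n x0)⁻¹ * tp (β h.1 : NN κ E) (θ h.2) * tp n x0 := by
        rw [tp_inv, tp_mul, tp_mul, h2]
      rw [h4, mul_smul, ← hgn, mul_smul]
      have h5 := hg h w
      have h6 : tp (β h.1 : NN κ E) (θ h.2) • g w = g (h • w) := h5.symm
      rw [h6, hgn, inv_smul_smul]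
      rfl
    have h7 := congrArg (fun t : (⊤ : Subgroup (NN κ E)) => (t : NN κ E)) h1
    change n⁻¹ * (β h.1 : NN κ E) * n = (h.1 : NN κ E) at h7
    rw [h7]
  -- the cocycle
  let γ0 : GG (⊤ : Subgroup (NN κ E)) C Y := SD.inr (tp n x0)
  let δ : X × C →* GG (⊤ : Subgroup (NN κ E)) C Y :=
    { toFun := fun h => γ0⁻¹ * emb X C Y (α (SD.inr h)) * γ0
      map_one' := by simp
      map_mul' := fun h h' => by
        simp only [map_mul]
        group }
  have hδc : ∀ h, (δ h).c = tp (h.1 : NN κ E) h.2 := by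
    intro h
    have h1 : (emb X C Y (α (SD.inr h))).c = tp (β h.1 : NN κ E) (θ h.2) := by
      have h2 := hc (SD.inr h)
      apply Prod.ext
      · apply Subtype.ext
        show ((α (SD.inr h)).c.1 : NN κ E) = (β h.1 : NN κ E)
        rw [h2]
        rfl
      · show (α (SD.inr h)).c.2 = θ h.2
        rw [h2]
        rfl
    show (γ0⁻¹).c * (emb X C Y (α (SD.inr h))).c * γ0.c = _
    rw [h1]
    exact hconj h
  obtain ⟨m0, hm0⟩ := h1 hn X hX (fun h => (δ h).v) (by
    intro h h'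
    show (δ (h * h')).v = (δ h).v + h • (δ h').v
    rw [map_mul, SD.mul_v, hδc]
    rfl)
  have hδ : ∀ h, δ h = (SD.inl m0 : GG (⊤ : Subgroup (NN κ E)) C Y)⁻¹ *
      SD.inr (tp (h.1 : NN κ E) h.2) * SD.inl m0 := by
    intro h
    apply SD.ext
    · have h1 := hm0 h
      change (δ h).v = _ at h1
      rw [h1]
      simp only [SD.mul_v, SD.mul_c, SD.inl_v, SD.inl_c, SD.inv_v, SD.inv_c, SD.inr_v, SD.inr_c,
        inv_one, one_smul, smul_zero, add_zero, one_mul]
      rw [tp_smul, neg_add_eq_sub]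
    · rw [hδc]
      simp
  refine ⟨γ0 * (SD.inl m0)⁻¹, fun u => ?_⟩
  have hu : emb X C Y (α (SD.inr u.c)) = γ0 * (SD.inl m0)⁻¹ *
      SD.inr (tp (u.c.1 : NN κ E) u.c.2) * (γ0 * (SD.inl m0)⁻¹)⁻¹ := by
    have h1 : emb X C Y (α (SD.inr u.c)) = γ0 * δ u.c * γ0⁻¹ := by
      show _ = γ0 * (γ0⁻¹ * emb X C Y (α (SD.inr u.c)) * γ0) * γ0⁻¹
      group
    rw [h1, hδ]
    group
  have hv : emb X C Y (α (SD.inl u.v)) = γ0 * (SD.inl m0)⁻¹ *
      SD.inl u.v * (γ0 * (SD.inl m0)⁻¹)⁻¹ := by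
    rw [hinl]
    have h1 : (SD.inl m0 : GG (⊤ : Subgroup (NN κ E)) C Y)⁻¹ * SD.inl u.v * SD.inl m0 =
        SD.inl u.v := by
      apply SD.ext
      · simp
      · simp
    have h2 : emb X C Y (SD.inl (g u.v)) = γ0 * SD.inl u.v * γ0⁻¹ := by
      rw [SD.conj_inl, ← hgn]
      rfl
    rw [h2]
    calc γ0 * SD.inl u.v * γ0⁻¹ = γ0 * ((SD.inl m0)⁻¹ * SD.inl u.v * SD.inl m0) * γ0⁻¹ := by
          rw [h1]
      _ = γ0 * (SD.inl m0)⁻¹ * SD.inl u.v * (γ0 * (SD.inl m0)⁻¹)⁻¹ := by group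
  have hemb : emb X C Y u = SD.inl u.v * SD.inr (tp (u.c.1 : NN κ E) u.c.2) :=
    SD.eq_mul (emb X C Y u)
  rw [hemb]
  conv_lhs => rw [SD.eq_mul u, map_mul, map_mul, hu, hv]
  group

end

end QP27
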