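import Pool.Agent.Helper27.QP.Blk

/-!
# AUT project (S00834): a semilinear automorphism of `E^15 × Y^15` is given by an element of `NN`
-/

set_option autoImplicit false
set_option linter.unusedSectionVars false

namespace QP27

open QN43 Matrix

section

variable {A : Type} [CommRing A] {B : Type} [Ring B] {κ : A →+* B}
variable {E : Type} [AddCommGroup E] [Module A E]
variable {C Y : Type} [Group C] [AddCommGroup Y] [Module B Y] [DistribMulAction C Y]
  [SMulCommClass C B Y]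

theorem rel_add {n : (AddMonoid.End (Fin 15 → E))ˣ × (Mt B)ˣ} {m m' l l' : Mt A}
    (h1 : Rel κ E n m m') (h2 : Rel κ E n l l') : Rel κ E n (m + l) (m' + l') := by
  refine ⟨?_, ?_⟩
  · rw [map_add, map_add, mul_add, add_mul, h1.1, h2.1]
  · rw [kT_add, kT_add, mul_add, add_mul, h1.2, h2.2]

theorem kT_zero : kT κ (0 : Mt A) = 0 := by
  funext i j
  simp [kT_apply]

theorem neg_mat (inc : ZMod 2 →+* A) (m : Mt A) : -m = m := by
  funext i j
  exact neg_eq_of_add_eq_zero_left (QG40.add_selfA inc (m i j))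

theorem rel_zero (n : (AddMonoid.End (Fin 15 → E))ˣ × (Mt B)ˣ) : Rel κ E n (0 : Mt A) 0 := by
  refine ⟨?_, ?_⟩
  · rw [map_zero, mul_zero, zero_mul]
  · rw [kT_zero, mul_zero, zero_mul]

/-- Elements of order `151` of `GL_15(A)` generate a group mapped by `sig` into `PiIn 151 G1s`. -/
theorem sig_mem_PiIn (hκ : Function.Injective κ) {z : GL (Fin 15) A}
    (hz : z ∈ Subgroup.closure {z : GL (Fin 15) A | orderOf z = 151}) :
    sig κ E z ∈ QL44.PiIn 151 (G1s κ E) := by
  have h1 : Subgroup.closure {z : GL (Fin 15) A | orderOf z = 151} ≤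
      (QL44.PiIn 151 (G1s κ E)).comap (sig κ E) := by
    rw [Subgroup.closure_le]
    intro w hw
    apply Subgroup.subset_closure
    refine ⟨⟨w, rfl⟩, ?_⟩
    rw [orderOf_injective _ (sig_injective κ E hκ) w]
    exact hw
  exact h1 hz

/-- `n sig(z) = sig(z') n` implies `Rel n z z'`. -/
theorem rel_of_conj {n : (AddMonoid.End (Fin 15 → E))ˣ × (Mt B)ˣ} {z z' : (Mt A)ˣ}
    (h : n * sig0 κ E z = sig0 κ E z' * n) : Rel κ E n (z : Mt A) (z' : Mt A) := by
  have h1 := congrArg (fun x => ((x.1 : (AddMonoid.End (Fin 15 → E))ˣ) : AddMonoid.End (Fin 15 → E))) h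
  have h2 := congrArg (fun x => ((x.2 : (Mt B)ˣ) : Mt B)) h
  refine ⟨h1, ?_⟩
  change (n.2 : Mt B) * kT κ ((z⁻¹ : (Mt A)ˣ) : Mt A) =
    kT κ ((z'⁻¹ : (Mt A)ˣ) : Mt A) * (n.2 : Mt B) at h2
  have h3 : kT κ ((z⁻¹ : (Mt A)ˣ) : Mt A) * kT κ (z : Mt A) = 1 := by
    rw [← kT_mul, Units.mul_inv, kT_one]
  have h4 : kT κ (z' : Mt A) * kT κ ((z'⁻¹ : (Mt A)ˣ) : Mt A) = 1 := by
    rw [← kT_mul, Units.inv_mul, kT_one]
  calc (n.2 : Mt B) * kT κ (z : Mt A)
      = kT κ (z' : Mt A) * kT κ ((z'⁻¹ : (Mt A)ˣ) : Mt A) * (n.2 : Mt B) * kT κ (z : Mt A) := by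
        rw [h4, one_mul]
    _ = kT κ (z' : Mt A) * ((n.2 : Mt B) * kT κ ((z⁻¹ : (Mt A)ˣ) : Mt A)) * kT κ (z : Mt A) := by
        rw [h2, mul_assoc (kT κ (z' : Mt A))]
    _ = kT κ (z' : Mt A) * (n.2 : Mt B) := by
        rw [mul_assoc, mul_assoc, h3, mul_one]

/-- A semilinear automorphism of `E^15 × Y^15` is given by an element of `NN`. -/
theorem mem_NN (hκ : Function.Injective κ) (inc : ZMod 2 →+* A) (eps : A →+* ZMod 2)
    (hsq : ∀ a b : A, eps a = 0 → eps b = 0 → a * b = 0)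
    (hC : Odd B C Y) {X : Subgroup (NN κ E)} (hX : G1s κ E ≤ X)
    (β : X ≃* X) (g : WW E Y ≃+ WW E Y)
    (hβ : ∀ x : X, (x : NN κ E) ∈ QL44.PiIn 151 (G1s κ E) →
      (β x : NN κ E) ∈ QL44.PiIn 151 (G1s κ E))
    (hβ' : ∀ x : X, (x : NN κ E) ∈ QL44.PiIn 151 (G1s κ E) →
      (β.symm x : NN κ E) ∈ QL44.PiIn 151 (G1s κ E))
    (hg : ∀ (x : X) (c : C) (w : WW E Y),
      g (((x, c) : X × C) • w) = ((β x, c) : X × C) • g w) :
    ∃ n : NN κ E, ∀ w : WW E Y,
      g w = ((⟨n, trivial⟩, (1 : C)) : (⊤ : Subgroup (NN κ E)) × C) • w := by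
  obtain ⟨n, hn⟩ := block hC hX β g hg
  -- the action of `n` intertwines
  have hconj : ∀ x : X, n * x.1.1 = (β x).1.1 * n := by
    intro x
    have h1 : ∀ w : WW E Y, g (((x, (1 : C)) : X × C) • w) = ((β x, (1 : C)) : X × C) • g w :=
      fun w => hg x 1 w
    apply Prod.ext
    · apply Units.ext
      apply AddMonoidHom.ext
      intro e
      have h2 := h1 (inE E Y e)
      rw [smul_inE, hn, hn, smul_add, smul_inE, smul_inY] at h2
      have h3 := congrArg Prod.fst h2
      change _ + (0 : Fin 15 → E) = _ + (0 : Fin 15 → E) at h3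
      rw [add_zero, add_zero] at h3
      exact h3
    · apply Units.ext
      apply mact_faithful hC.faith
      intro y
      have h2 := h1 (inY E Y y)
      rw [smul_inY, hn, hn, smul_add, smul_inE, smul_inY] at h2
      have h3 := congrArg Prod.snd h2
      change (0 : Fin 15 → Y) + _ = (0 : Fin 15 → Y) + _ at h3
      rw [zero_add, zero_add] at h3
      simp only [one_smul] at h3
      rw [Prod.snd_mul, Prod.snd_mul, Units.val_mul, Units.val_mul, mact_mul_apply, mact_mul_apply]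
      exact h3
  have hspan := QG40.spanPi inc eps hsq
  have hmem : n ∈ NN κ E := by
    constructor
    · intro m
      have hm : m ∈ AddSubgroup.closure {M : Matrix (Fin 15) (Fin 15) A |
          ∃ g ∈ Subgroup.closure {z : GL (Fin 15) A | orderOf z = 151}, M = g} := by
        rw [hspan]
        trivial
      induction hm using AddSubgroup.closure_induction with
      | mem m hm =>
        obtain ⟨z, hz, rfl⟩ := hm
        have h1 := sig_mem_PiIn (E := E) hκ hz
        obtain ⟨z', hz'⟩ := QL44.PiIn_le _ _ (hβ ⟨sig κ E z, hX ⟨z, rfl⟩⟩ h1)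
        refine ⟨z', rel_of_conj ?_⟩
        have h2 := hconj ⟨sig κ E z, hX ⟨z, rfl⟩⟩
        rw [← hz'] at h2
        exact h2
      | zero => exact ⟨0, rel_zero n⟩
      | add a b _ _ ha hb =>
        obtain ⟨a', ha'⟩ := ha
        obtain ⟨b', hb'⟩ := hb
        exact ⟨_, rel_add ha' hb'⟩
      | neg a _ ha =>
        obtain ⟨a', ha'⟩ := ha
        rw [neg_mat inc]
        exact ⟨_, ha'⟩
    · intro m
      have hm : m ∈ AddSubgroup.closure {M : Matrix (Fin 15) (Fin 15) A |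
          ∃ g ∈ Subgroup.closure {z : GL (Fin 15) A | orderOf z = 151}, M = g} := by
        rw [hspan]
        trivial
      induction hm using AddSubgroup.closure_induction with
      | mem m hm =>
        obtain ⟨z, hz, rfl⟩ := hm
        have h1 := sig_mem_PiIn (E := E) hκ hz
        obtain ⟨z', hz'⟩ := QL44.PiIn_le _ _ (hβ' ⟨sig κ E z, hX ⟨z, rfl⟩⟩ h1)
        refine ⟨z', rel_of_conj ?_⟩
        have h2 := hconj (β.symm ⟨sig κ E z, hX ⟨z, rfl⟩⟩)
        rw [MulEquiv.apply_symm_apply, ← hz'] at h2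
        exact h2
      | zero => exact ⟨0, rel_zero n⟩
      | add a b _ _ ha hb =>
        obtain ⟨a', ha'⟩ := ha
        obtain ⟨b', hb'⟩ := hb
        exact ⟨_, rel_add ha' hb'⟩
      | neg a _ ha =>
        obtain ⟨a', ha'⟩ := ha
        rw [neg_mat inc]
        exact ⟨_, ha'⟩
  refine ⟨⟨n, hmem⟩, fun w => ?_⟩
  rw [hn w]
  apply ww_ext
  · show _ + (0 : Fin 15 → E) = _
    rw [add_zero]
    rfl
  · show (0 : Fin 15 → Y) + _ = mact (n.2 : Mt B) (fun i => (1 : C) • w.2 i)
    simp only [one_smul, zero_add]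
    rfl

end

end QP27
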