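import Pool.Agent.Helper27.QP.Conj
import Pool.Agent.Helper44.QM.Factors
import Pool.Agent.Helper42.QH.NNSteps
import Pool.Agent.Helper40.QX.Char

/-!
# AUT project (S00834): `odd_center`, `F_odd`, `even_of_odd`
-/

set_option autoImplicit false
set_option linter.unusedSectionVars false

namespace QP27

open QN43 Matrix

section

variable {J : Type} [AddCommGroup J] [Module (ZMod 2) J] [Module (ZMod 2)ᵐᵒᵖ J]
  [IsCentralScalar (ZMod 2) J]
variable {B : Type} [Ring B] {κ : A0 J →+* B}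
variable {E : Type} [AddCommGroup E] [Module (A0 J) E]
variable {C Y : Type} [Group C] [AddCommGroup Y] [Module B Y] [DistribMulAction C Y]
  [SMulCommClass C B Y]

/-- An element commuting with `E^15 × Y^15`, with an element of order `151` of `GL_15(A0)` and with the
elements of order `151` of `C` is `1`. -/
theorem eq_one_of_comm (hC : Odd B C Y) {X : Subgroup (NN κ E)} (hX : G1s κ E ≤ X)
    (z : (Mt (A0 J))ˣ) (hz : orderOf z = 151) (u : GG X C Y)
    (h1 : ∀ w : WW E Y, u * SD.inl w = SD.inl w * u)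
    (h2 : u * SD.inr (sg X hX C z) = SD.inr (sg X hX C z) * u)
    (h3 : ∀ c : C, c ^ 151 = 1 →
      u * (SD.inr (((1 : X), c) : X × C)) = (SD.inr (((1 : X), c) : X × C)) * u) : u = 1 := by
  have hv : u.v = 0 := v_zero_of_comm X hX z hz u h2
  have hw : ∀ w : WW E Y, u.c • w = w := by
    intro w
    have h4 := congrArg SD.v (h1 w)
    simp only [SD.mul_v, SD.inl_v, SD.inl_c, one_smul, hv, zero_add, add_zero] at h4
    exact h4
  obtain ⟨h5, h6⟩ := QM44.trivial_W hC u.c hw
  have h7 : u.c.2 = 1 := by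
    apply hC.piCent u.c.2 h6
    intro c hc
    have h8 := congrArg (fun t => t.c.2) (h3 c hc)
    exact h8
  apply SD.ext
  · exact hv
  · exact Prod.ext h5 h7

/-- The elements of order `151` of `NN` lie in `G1s`. -/
theorem mem_Pi_iff (h : QM44.NF κ E) (n : NN κ E) :
    n ∈ QL44.PiIn 151 (G1s κ E) ↔ n ∈ QL44.Pi 151 (NN κ E) := by
  have h1 : QL44.PiIn 151 (G1s κ E) = QL44.Pi 151 (NN κ E) := by
    unfold QL44.PiIn QL44.Pi
    congr 1
    ext x
    constructor
    · rintro ⟨-, hx⟩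
      exact hx
    · intro hx
      refine ⟨h.pow x ?_, hx⟩
      have hx' : orderOf x = 151 := hx
      rw [← hx']
      exact pow_orderOf_eq_one x
  rw [h1]

/-- **The uniform proposition.** -/
theorem uniform (h : QM44.NF κ E) (hn : (G1s κ E).Normal) (hC : Odd B C Y)
    {X : Subgroup (NN κ E)} (hX : G1s κ E ≤ X) (α : MulAut (GG X C Y))
    (D : Subgroup (GG X C Y))
    (hD : ∀ c : C, (∀ y : Y, c • y = y) → (⟨0, (1, c)⟩ : GG X C Y) ∈ D)
    (hDα : ∀ u ∈ D, α u ∈ D)
    (hTD : ¬ ∀ u : GG X C Y, u.c.2 = 1 → u ∈ D) :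
    ∃ γ : GG (⊤ : Subgroup (NN κ E)) C Y, ∀ u, emb X C Y (α u) = γ * emb X C Y u * γ⁻¹ := by
  have _ := h.finE
  obtain ⟨β, θ, g, e1, e2, -, e4⟩ := QM44.exists_factors h hX hC α D hD hDα hTD
  refine conj_of_factors h.inj hn hC hX α β θ g e1 e2 ?_ ?_
  · intro x hx
    rw [mem_Pi_iff h] at hx ⊢
    exact (e4 x).mpr hx
  · intro x hx
    rw [mem_Pi_iff h] at hx ⊢
    have h1 := e4 (β.symm x)
    rw [MulEquiv.apply_symm_apply] at h1
    exact h1.mp hx

theorem mem_range_emb {X : Subgroup (NN κ E)} (v : GG (⊤ : Subgroup (NN κ E)) C Y) :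
    v ∈ (emb X C Y).range ↔ (v.c.1 : NN κ E) ∈ X := by
  constructor
  · rintro ⟨u, rfl⟩
    exact u.c.1.2
  · intro hv
    exact ⟨⟨v.v, (⟨v.c.1, hv⟩, v.c.2)⟩, rfl⟩

theorem range_normal {X : Subgroup (NN κ E)} (hn : X.Normal) : (emb X C Y).range.Normal := by
  refine ⟨fun v hv g => ?_⟩
  rw [mem_range_emb] at hv ⊢
  exact hn.conj_mem _ hv (g.c.1 : NN κ E)

/-- `D0 ≤` the commutator subgroup. -/
theorem inr_mem_commutator (hC : commutator C = ⊤) {X : Subgroup (NN κ E)} (c : C) :
    (⟨0, (1, c)⟩ : GG X C Y) ∈ commutator (GG X C Y) := by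
  let f : C →* GG X C Y := (SD.inr : X × C →* GG X C Y).comp (MonoidHom.inr X C)
  have h1 : (commutator C).map f ≤ commutator (GG X C Y) := by
    rw [commutator_def, commutator_def, Subgroup.map_commutator]
    exact Subgroup.commutator_mono le_top le_top
  exact h1 ⟨c, by rw [hC]; trivial, rfl⟩

/-- `GL_15(A0)` is not perfect, so not all of `M ⋊ G1s` lies in the commutator subgroup. -/
theorem not_all_mem (hκ : Function.Injective κ) [Nontrivial J] :
    ¬ ∀ u : GG (G1s κ E) C Y, u.c.2 = 1 → u ∈ commutator (GG (G1s κ E) C Y) := by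
  intro hall
  obtain ⟨j, hj⟩ := exists_ne (0 : J)
  let f : GG (G1s κ E) C Y →* (A0 J)ˣ :=
    (GeneralLinearGroup.det : GL (Fin 15) (A0 J) →* (A0 J)ˣ).comp
      ((sigEquiv κ E hκ).symm.toMonoidHom.comp ((MonoidHom.fst (G1s κ E) C).comp SD.pr))
  have h1 : commutator (GG (G1s κ E) C Y) ≤ f.ker := Abelianization.commutator_subset_ker f
  let a : (A0 J)ˣ := QX40.onej (Multiplicative.ofAdd j)
  have h2 := h1 (hall ⟨0, (sigEquiv κ E hκ (QX40.sc a), 1)⟩ rfl)
  have h3 : f ⟨0, (sigEquiv κ E hκ (QX40.sc a), 1)⟩ = a := by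
    show GeneralLinearGroup.det ((sigEquiv κ E hκ).symm (sigEquiv κ E hκ (QX40.sc a))) = a
    rw [MulEquiv.symm_apply_apply]
    exact QX40.det_sc a
  rw [MonoidHom.mem_ker, h3] at h2
  have h4 := congrArg (fun t : (A0 J)ˣ => (t : A0 J).snd) h2
  have h5 : (a : A0 J).snd = j := by
    show (1 + TrivSqZeroExt.inr j : A0 J).snd = j
    simp
  apply hj
  rw [← h5]
  exact h4

/-- `Aut(N') = C'`, acting by conjugation. -/
theorem exists_aut (h : QM44.NF κ E) (hn : (G1s κ E).Normal) [Nontrivial J] (hC : Odd B C Y) :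
    ∃ a : GG (⊤ : Subgroup (NN κ E)) C Y ≃* MulAut (GG (G1s κ E) C Y),
      ∀ g x, emb (G1s κ E) C Y (a g x) = g * emb (G1s κ E) C Y x * g⁻¹ := by
  have _ := range_normal (C := C) (Y := Y) hn
  let e : GG (G1s κ E) C Y ≃* (emb (G1s κ E) C Y).range :=
    MonoidHom.ofInjective (emb_injective (G1s κ E))
  let a0 : GG (⊤ : Subgroup (NN κ E)) C Y →* MulAut (GG (G1s κ E) C Y) :=
    (MulAut.congr e.symm).toMonoidHom.comp (MulAut.conjNormal (H := (emb (G1s κ E) C Y).range))
  have ha0 : ∀ g x, emb (G1s κ E) C Y (a0 g x) = g * emb (G1s κ E) C Y x * g⁻¹ := by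
    intro g x
    have h1 : a0 g x = e.symm (MulAut.conjNormal g (e x)) := rfl
    have h2 : ((e (a0 g x) : (emb (G1s κ E) C Y).range) : GG (⊤ : Subgroup (NN κ E)) C Y) =
        g * emb (G1s κ E) C Y x * g⁻¹ := by
      rw [h1, MulEquiv.apply_symm_apply]
      exact MulAut.conjNormal_apply g (e x)
    exact h2
  refine ⟨MulEquiv.ofBijective a0 ⟨?_, ?_⟩, ha0⟩
  · rw [injective_iff_map_eq_one]
    intro g hg
    have h1 : ∀ x, g * emb (G1s κ E) C Y x = emb (G1s κ E) C Y x * g := by
      intro x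
      have h2 := ha0 g x
      rw [hg] at h2
      have h3 : emb (G1s κ E) C Y x = g * emb (G1s κ E) C Y x * g⁻¹ := h2
      conv_rhs => rw [h3]
      group
    obtain ⟨z, hz⟩ := exists_zA J
    refine eq_one_of_comm hC le_top z hz g ?_ ?_ ?_
    · intro w
      exact h1 (SD.inl w)
    · exact h1 (SD.inr (sg (G1s κ E) le_rfl C z))
    · intro c _
      exact h1 (SD.inr (1, c))
  · intro α
    have hc : ∀ u ∈ commutator (GG (G1s κ E) C Y), α u ∈ commutator (GG (G1s κ E) C Y) := by
      intro u hu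
      have h1 : (commutator (GG (G1s κ E) C Y)).map α.toMonoidHom ≤
          commutator (GG (G1s κ E) C Y) := by
        rw [commutator_def, Subgroup.map_commutator]
        exact Subgroup.commutator_mono le_top le_top
      exact h1 ⟨u, hu, rfl⟩
    obtain ⟨γ, hγ⟩ := uniform h hn hC le_rfl α (commutator (GG (G1s κ E) C Y))
      (fun c _ => inr_mem_commutator hC.perf c) hc (not_all_mem h.inj)
    refine ⟨γ, ?_⟩
    apply MulEquiv.ext
    intro u
    apply emb_injective (G1s κ E)
    rw [ha0, hγ]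

end

section G

variable {J B E W U O : Type}
    [AddCommGroup J] [Module (ZMod 2) J] [Module (ZMod 2)ᵐᵒᵖ J] [IsCentralScalar (ZMod 2) J]
    [Ring B] [AddCommGroup E] [Module (A0 J) E] [AddCommGroup W] [Module (A0 J) W]
    [AddCommGroup U] [Module B U] [Group O] [DistribMulAction O W] [DistribMulAction O U]
    {κ : A0 J →+* B} {inc : E →+ W} {jU : U →+ (W →+ ZMod 2)} {Φ : J ≃+ (Fin 15 → W)}
    {p : NN0 κ E →* O}

theorem nf_of (h : GFacts κ inc jU Φ p) : QM44.NF κ E :=
  ⟨h.finJ, h.finB, h.finE, h.kapInj, QS42.NN_pow h, QS42.NN_comm h⟩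

/-- (O1) the group `N' = GG G1s C Y` is centreless. -/
theorem odd_center (h : GFacts κ inc jU Φ p) {C Y : Type} [Group C] [AddCommGroup Y] [Module B Y]
    [DistribMulAction C Y] [SMulCommClass C B Y] (hC : Odd B C Y) :
    Subgroup.center (GG (G1s κ E) C Y) = ⊥ := by
  rw [Subgroup.eq_bot_iff_forall]
  intro u hu
  rw [Subgroup.mem_center_iff] at hu
  obtain ⟨z, hz⟩ := exists_zA J
  exact eq_one_of_comm hC le_rfl z hz u (fun w => (hu _).symm) (hu _).symm (fun c _ => (hu _).symm)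

/-- (O2) `F(N') = V ⋊ C'`. -/
theorem F_odd (h : GFacts κ inc jU Φ p) {q : NN κ E →* O} (hq : QSpec κ E Φ q)
    {C Y : Type} [Group C] [AddCommGroup Y] [Module B Y]
    [DistribMulAction C Y] [SMulCommClass C B Y] (hC : Odd B C Y)
    [DistribMulAction (GG (⊤ : Subgroup (NN κ E)) C Y) W]
    (hW : ∀ (g : GG (⊤ : Subgroup (NN κ E)) C Y) (w : W), g • w = q g.c.1.1 • w) :
    Nonempty (F (GG (G1s κ E) C Y) ≃* SD (DV W) (GG (⊤ : Subgroup (NN κ E)) C Y)) := by
  have _ := h.nontrivJ
  obtain ⟨a, ha⟩ := exists_aut (nf_of h) (QS42.G1s_normal h) hC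
  exact QX40.F_odd_of_aut h hq hC hW a ha

/-- (O3) odd ⇒ even. -/
theorem even_of_odd (h : GFacts κ inc jU Φ p) {q : NN κ E →* O} (hq : QSpec κ E Φ q)
    {C Y : Type} [Group C] [AddCommGroup Y] [Module B Y]
    [DistribMulAction C Y] [SMulCommClass C B Y] (hC : Odd B C Y)
    [DistribMulAction (GG (⊤ : Subgroup (NN κ E)) C Y) U]
    (q' : GG (⊤ : Subgroup (NN κ E)) C Y →* O) (hq' : ∀ g, q' g = q g.c.1.1)
    (hU : ∀ (g : GG (⊤ : Subgroup (NN κ E)) C Y) (u : U), g • u = q' g • u) :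
    Even U q' := by
  have hE := h.finE
  have hB := h.finB
  have hY := hC.finY
  have hCf := hC.finC
  have _ := finite_NN κ E
  refine ⟨inferInstance, GG_perf (QS42.NN_perf h) hC.perf, ?_, ?_, ?_⟩
  · intro o
    obtain ⟨n, hn⟩ := hq.surj o
    exact ⟨⟨0, (⟨n, trivial⟩, 1)⟩, by rw [hq']; exact hn⟩
  · intro u hu
    obtain ⟨z, hz⟩ := exists_zA J
    have hz1 : z ^ 151 = 1 := by rw [← hz]; exact pow_orderOf_eq_one z
    have h2 : u * SD.inr (sg ⊤ le_top C z) = SD.inr (sg ⊤ le_top C z) * u := by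
      apply hu
      rw [← map_pow, ← map_pow, hz1, map_one, map_one]
    refine eq_one_of_comm hC le_top z hz u ?_ h2 ?_
    · intro w
      have h3 := hu _ (inl_inr_pow (C := C) (Y := Y) (⊤ : Subgroup (NN κ E)) le_top z hz w)
      rw [← mul_assoc, mul_assoc (SD.inl w), ← h2, ← mul_assoc] at h3
      exact mul_right_cancel h3
    · intro c hc
      apply hu
      rw [← map_pow]
      have : (((1 : (⊤ : Subgroup (NN κ E))), c) : (⊤ : Subgroup (NN κ E)) × C) ^ 151 = 1 :=
        Prod.ext (one_pow 151) hc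
      rw [this, map_one]
  · intro θ hθ
    -- the subgroup on which all cocycles vanish
    let D : Subgroup (GG (⊤ : Subgroup (NN κ E)) C Y) :=
      { carrier := {g | ∀ f : Z1 (GG (⊤ : Subgroup (NN κ E)) C Y) U, f.1 g = 0}
        mul_mem' := fun {a b} ha hb f => by
          rw [Z1.mul, ha f, hb f, smul_zero, add_zero]
        one_mem' := fun f => Z1.one f
        inv_mem' := fun {a} ha f => by
          rw [Z1.inv, ha f, smul_zero, neg_zero] }
    have hD : ∀ c : C, (⟨0, (1, c)⟩ : GG (⊤ : Subgroup (NN κ E)) C Y) ∈ D := by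
      intro c f
      -- `c ↦ f (0, (1, c))` is a homomorphism to a commutative group
      have hact : ∀ (c : C) (u : U),
          (⟨0, (1, c)⟩ : GG (⊤ : Subgroup (NN κ E)) C Y) • u = u := by
        intro c u
        rw [hU, hq']
        show q 1 • u = u
        rw [map_one, one_smul]
      let fC : C →* Multiplicative U :=
        { toFun := fun c => Multiplicative.ofAdd
            (f.1 (⟨0, (1, c)⟩ : GG (⊤ : Subgroup (NN κ E)) C Y))
          map_one' := congrArg Multiplicative.ofAdd (Z1.one f)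
          map_mul' := fun a b => by
            have h1 : (⟨0, (1, a * b)⟩ : GG (⊤ : Subgroup (NN κ E)) C Y) =
                ⟨0, (1, a)⟩ * ⟨0, (1, b)⟩ := by
              apply SD.ext
              · simp
              · exact Prod.ext (mul_one _).symm rfl
            rw [h1, Z1.mul, hact]
            rfl }
      have h2 : commutator C ≤ fC.ker := Abelianization.commutator_subset_ker fC
      rw [hC.perf] at h2
      exact h2 (Subgroup.mem_top c)
    obtain ⟨γ, hγ⟩ := uniform (nf_of h) (QS42.G1s_normal h) hC le_top θ D (fun c _ => hD c)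
      (fun u hu => hθ u hu) (by
        intro hall
        have hnt := h.nontrivU
        obtain ⟨u0, hu0⟩ := exists_ne (0 : U)
        apply hu0
        apply h.fixU
        intro o
        obtain ⟨n, hn⟩ := hq.surj o
        have h1 := hall ⟨0, (⟨n, trivial⟩, 1)⟩ rfl (Z1.delta u0)
        rw [Z1.delta_apply, hU, hq'] at h1
        have h2 : q n • u0 - u0 = 0 := h1
        rw [hn] at h2
        exact sub_eq_zero.mp h2)
    refine ⟨γ, fun c => ?_⟩
    exact hγ c

end G

end QP27
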